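import Pool.Agent.Y245.SC.Stm3

/-!
Project SC (helper245), job SC-LAPB: no poles of order at least two (from Laplace's method).
-/

set_option autoImplicit false

open Complex MeasureTheory Metric Set Filter Topology

namespace Pool.Agent.Y219.SC

open Pool.Agent.Y245.SC

/-- second order Taylor bound on a disc -/
lemma taylor2 (f : ℂ → ℂ) (c : ℂ) (ρ : ℝ) (hρ : 0 < ρ) (hf : DifferentiableOn ℂ f (ball c ρ)) :
    ∃ C : ℝ, 0 ≤ C ∧ ∀ s t : ℂ, ‖s‖ ≤ ρ / 2 → ‖t‖ ≤ ρ / 2 →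
      ‖f (c + s) - f (c + t) - (s - t) * deriv f (c + t)‖ ≤ C * ‖s - t‖ ^ 2 := by
  have h1 : DifferentiableOn ℂ (deriv f) (ball c ρ) := hf.deriv isOpen_ball
  have h2 : DifferentiableOn ℂ (deriv (deriv f)) (ball c ρ) := h1.deriv isOpen_ball
  have hsub : closedBall c (ρ / 2) ⊆ ball c ρ := closedBall_subset_ball (by linarith)
  obtain ⟨C, hC⟩ := (isCompact_closedBall c (ρ / 2)).exists_bound_of_continuousOn
    (h2.continuousOn.mono hsub)
  have hC0 : 0 ≤ C := le_trans (norm_nonneg _) (hC c (mem_closedBall_self (by linarith)))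
  refine ⟨C, hC0, fun s t hs ht => ?_⟩
  have hms : c + s ∈ closedBall c (ρ / 2) := by simpa [mem_closedBall, dist_eq_norm] using hs
  have hmt : c + t ∈ closedBall c (ρ / 2) := by simpa [mem_closedBall, dist_eq_norm] using ht
  have hl : ∀ z ∈ closedBall c (ρ / 2), ‖deriv f z - deriv f (c + t)‖ ≤ C * ‖z - (c + t)‖ := by
    intro z hz
    exact (convex_closedBall c (ρ / 2)).norm_image_sub_le_of_norm_deriv_le
      (fun w hw => (h1.differentiableAt (isOpen_ball.mem_nhds (hsub hw)))) hC hmt hz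
  have hSc : Convex ℝ (closedBall c (ρ / 2) ∩ closedBall (c + t) ‖s - t‖) :=
    (convex_closedBall _ _).inter (convex_closedBall _ _)
  have hkey := hSc.norm_image_sub_le_of_norm_hasDerivWithin_le
    (f := fun z => f z - z * deriv f (c + t)) (f' := fun z => deriv f z - deriv f (c + t))
    (C := C * ‖s - t‖) (x := c + t) (y := c + s)
    (fun z hz => by
      have hd : HasDerivAt f (deriv f z) z :=
        (hf.differentiableAt (isOpen_ball.mem_nhds (hsub hz.1))).hasDerivAt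
      have h3 := (hd.sub ((hasDerivAt_id z).mul_const (deriv f (c + t)))).hasDerivWithinAt
        (s := closedBall c (ρ / 2) ∩ closedBall (c + t) ‖s - t‖)
      have e3 : deriv f z - 1 * deriv f (c + t) = deriv f z - deriv f (c + t) := by ring
      rw [e3] at h3
      exact h3)
    (fun z hz => by
      refine (hl z hz.1).trans (mul_le_mul_of_nonneg_left ?_ hC0)
      simpa [mem_closedBall, dist_eq_norm] using hz.2)
    ⟨hmt, mem_closedBall_self (norm_nonneg _)⟩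
    ⟨hms, by rw [mem_closedBall, dist_eq_norm]; simp⟩
  have e1 : f (c + s) - f (c + t) - (s - t) * deriv f (c + t)
      = (fun z => f z - z * deriv f (c + t)) (c + s) -
        (fun z => f z - z * deriv f (c + t)) (c + t) := by
    simp only; ring
  rw [e1]
  refine hkey.trans (le_of_eq ?_)
  have e2 : c + s - (c + t) = s - t := by ring
  rw [e2]; ring

/-- `e^{it} = 1 + it + O(t^2)` for all real `t` -/
lemma phi2 (t : ℝ) : ‖exp (t * I) - 1 - t * I‖ ≤ 3 * t ^ 2 := by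
  rcases le_or_gt |t| 1 with h | h
  · have h1 := Complex.exp_bound_sq 0 (t * I) (by simpa using h)
    have h2 : ‖exp (t * I) - 1 - t * I‖ ≤ t ^ 2 := by simpa using h1
    nlinarith [sq_nonneg t]
  · have h1 : ‖exp (t * I) - 1 - t * I‖ ≤ 1 + 1 + |t| := by
      refine (norm_sub_le _ _).trans ?_
      refine add_le_add ((norm_sub_le _ _).trans ?_) (by simp)
      rw [Complex.norm_exp_ofReal_mul_I]; simp
    have h2 : |t| ^ 2 = t ^ 2 := sq_abs t
    nlinarith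

/-- the model phase: `e^{iθ} + e^{-imθ}/m` minus its value at `0` -/
noncomputable def mdl (m : ℕ) (θ : ℝ) : ℂ :=
  (exp (θ * I) - 1) + (exp (((-(m * θ) : ℝ)) * I) - 1) / m

lemma mdl_bd (m : ℕ) (hm : 2 ≤ m) (θ : ℝ) : ‖mdl m θ‖ ≤ 6 * m * θ ^ 2 := by
  have hm0 : (0 : ℝ) < m := by exact_mod_cast (by omega : 0 < m)
  have hm1 : (1 : ℝ) ≤ m := by exact_mod_cast (by omega : 1 ≤ m)
  have hmc : (m : ℂ) ≠ 0 := by exact_mod_cast (by omega : m ≠ 0)
  have e : mdl m θ = (exp (θ * I) - 1 - θ * I) +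
      (exp (((-(m * θ) : ℝ)) * I) - 1 - ((-(m * θ) : ℝ)) * I) / m := by
    unfold mdl; push_cast; field_simp; ring
  rw [e]
  have h1 := phi2 θ
  have h2 := phi2 (-(m * θ))
  refine (norm_add_le _ _).trans ?_
  rw [norm_div, Complex.norm_natCast]
  have h3 : ‖exp (((-(m * θ) : ℝ)) * I) - 1 - ((-(m * θ) : ℝ)) * I‖ / m ≤ 3 * m * θ ^ 2 := by
    rw [div_le_iff₀ hm0]
    refine h2.trans (le_of_eq ?_)
    ring
  have h4 : 3 * θ ^ 2 ≤ 3 * m * θ ^ 2 := by nlinarith [sq_nonneg θ]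
  linarith

lemma aux_bd (m : ℕ) (hm : 2 ≤ m) (θ : ℝ) :
    ‖exp (((-(m * θ) : ℝ)) * I) * (exp (θ * I) - 1) + (exp (((-(m * θ) : ℝ)) * I) - 1) / m‖
      ≤ 9 * m ^ 2 * θ ^ 2 := by
  have hm0 : (0 : ℝ) < m := by exact_mod_cast (by omega : 0 < m)
  have hm1 : (1 : ℝ) ≤ m := by exact_mod_cast (by omega : 1 ≤ m)
  have hmc : (m : ℂ) ≠ 0 := by exact_mod_cast (by omega : m ≠ 0)
  have e0 : exp (((-(m * θ) : ℝ)) * I) * exp (θ * I) = exp (((-((m - 1) * θ) : ℝ)) * I) := by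
    rw [← Complex.exp_add]; congr 1; push_cast; ring
  have e : exp (((-(m * θ) : ℝ)) * I) * (exp (θ * I) - 1) +
      (exp (((-(m * θ) : ℝ)) * I) - 1) / m =
      (exp (((-((m - 1) * θ) : ℝ)) * I) - 1 - ((-((m - 1) * θ) : ℝ)) * I)
      - (exp (((-(m * θ) : ℝ)) * I) - 1 - ((-(m * θ) : ℝ)) * I)
      + (exp (((-(m * θ) : ℝ)) * I) - 1 - ((-(m * θ) : ℝ)) * I) / m := by
    rw [mul_sub, e0, mul_one]; push_cast; field_simp; ring
  rw [e]
  have h1 := phi2 (-((m - 1) * θ))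
  have h2 := phi2 (-(m * θ))
  refine (norm_add_le _ _).trans ?_
  have h4 : ‖(exp (((-((m - 1) * θ) : ℝ)) * I) - 1 - ((-((m - 1) * θ) : ℝ)) * I)
      - (exp (((-(m * θ) : ℝ)) * I) - 1 - ((-(m * θ) : ℝ)) * I)‖ ≤ 6 * m ^ 2 * θ ^ 2 := by
    refine (norm_sub_le _ _).trans ?_
    have h5 : 3 * (-((m - 1) * θ)) ^ 2 ≤ 3 * m ^ 2 * θ ^ 2 := by
      have : ((m : ℝ) - 1) ^ 2 ≤ m ^ 2 := by nlinarith
      nlinarith [mul_le_mul_of_nonneg_right this (sq_nonneg θ)]
    have h6 : 3 * (-(m * θ)) ^ 2 = 3 * m ^ 2 * θ ^ 2 := by ring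
    linarith
  rw [norm_div, Complex.norm_natCast]
  have h3 : ‖exp (((-(m * θ) : ℝ)) * I) - 1 - ((-(m * θ) : ℝ)) * I‖ / m ≤ 3 * m ^ 2 * θ ^ 2 := by
    rw [div_le_iff₀ hm0]
    refine h2.trans ?_
    have : 3 * (-(m * θ)) ^ 2 = 3 * (m : ℝ) ^ 2 * θ ^ 2 * 1 := by ring
    rw [this]
    exact mul_le_mul_of_nonneg_left hm1 (by positivity)
  linarith

lemma mdl_re (m : ℕ) (hm : 2 ≤ m) (θ : ℝ) (hθ : |θ| ≤ Real.pi) :
    (mdl m θ).re ≤ -(2 / Real.pi ^ 2) * θ ^ 2 := by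
  have hm0 : (0 : ℝ) < m := by exact_mod_cast (by omega : 0 < m)
  have e : (mdl m θ).re = (Real.cos θ - 1) + (Real.cos (-(m * θ)) - 1) / m := by
    unfold mdl
    rw [Complex.add_re, Complex.sub_re, Complex.exp_ofReal_mul_I_re, Complex.one_re,
      Complex.div_natCast_re, Complex.sub_re, Complex.exp_ofReal_mul_I_re, Complex.one_re]
  rw [e]
  have h1 := Real.cos_le_one_sub_mul_cos_sq hθ
  have h2 : (Real.cos (-(m * θ)) - 1) / m ≤ 0 :=
    div_nonpos_of_nonpos_of_nonneg (by linarith [Real.cos_le_one (-(m * θ))]) hm0.le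
  linarith

lemma mdl_taylor (m : ℕ) (hm : 2 ≤ m) (θ : ℝ) (hθ : m * |θ| ≤ 1) :
    ‖mdl m θ + (((1 + m) * θ ^ 2 / 2 : ℝ) : ℂ)‖ ≤ 2 * m ^ 2 * |θ| ^ 3 := by
  have hm0 : (0 : ℝ) < m := by exact_mod_cast (by omega : 0 < m)
  have hm1 : (1 : ℝ) ≤ m := by exact_mod_cast (by omega : 1 ≤ m)
  have hmc : (m : ℂ) ≠ 0 := by exact_mod_cast (by omega : m ≠ 0)
  have hb : ∀ t : ℝ, |t| ≤ 1 → ‖exp (t * I) - (1 + t * I + (t * I) ^ 2 / 2)‖ ≤ |t| ^ 3 := by
    intro t ht
    have h := Complex.exp_bound (x := t * I) (by simpa using ht) (n := 3) (by norm_num)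
    simp only [Finset.sum_range_succ, Finset.sum_range_zero, pow_zero, Nat.factorial, pow_one,
      Nat.cast_one, div_one, zero_add, Nat.succ_eq_add_one] at h
    have h7 : ‖(t : ℂ) * I‖ = |t| := by simp
    rw [h7] at h
    norm_num at h
    have h8 : (0 : ℝ) ≤ |t| ^ 3 := by positivity
    calc _ ≤ _ := h
      _ ≤ |t| ^ 3 := by nlinarith
  have e : mdl m θ + (((1 + m) * θ ^ 2 / 2 : ℝ) : ℂ) =
      (exp (θ * I) - (1 + θ * I + (θ * I) ^ 2 / 2)) +
      (exp (((-(m * θ) : ℝ)) * I) - (1 + ((-(m * θ) : ℝ)) * I + (((-(m * θ) : ℝ)) * I) ^ 2 / 2))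
        / m := by
    unfold mdl; push_cast
    have hI : I ^ 2 = -1 := Complex.I_sq
    field_simp
    ring_nf
    rw [hI]; ring
  rw [e]
  refine (norm_add_le _ _).trans ?_
  have ha : |(-(m * θ) : ℝ)| = m * |θ| := by rw [abs_neg, abs_mul, abs_of_pos hm0]
  have h1 := hb θ (by nlinarith [abs_nonneg θ])
  have h2 := hb (-(m * θ)) (by rw [ha]; exact hθ)
  rw [ha] at h2
  rw [norm_div, Complex.norm_natCast]
  have h3 : ‖exp (((-(m * θ) : ℝ)) * I) - (1 + ((-(m * θ) : ℝ)) * I +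
      (((-(m * θ) : ℝ)) * I) ^ 2 / 2)‖ / m ≤ m ^ 2 * |θ| ^ 3 := by
    rw [div_le_iff₀ hm0]
    refine h2.trans (le_of_eq ?_)
    ring
  have h4 : |θ| ^ 3 ≤ m ^ 2 * |θ| ^ 3 := by
    have : (1 : ℝ) ≤ m ^ 2 := by nlinarith
    nlinarith [pow_nonneg (abs_nonneg θ) 3]
  linarith

/-- the phase on the circle of radius `‖η‖` -/
noncomputable def ph (x E : ℂ → ℂ) (c : ℂ) (m : ℕ) (η : ℂ) (θ : ℝ) : ℂ :=
  (x (c + η * exp (θ * I)) - x c) / (η * deriv x (c + η)) +
  exp (((-(m * θ) : ℝ)) * I) * E (c + η * exp (θ * I)) / (m * E (c + η) - η * deriv E (c + η))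

lemma alg (xw x0 x1 Ew E1 E' d η w v m : ℂ) (hη : η ≠ 0) (hd : d ≠ 0) (hm : m ≠ 0)
    (hM : m * E1 - η * E' ≠ 0) :
    (xw - x0) / (η * d) + v * Ew / (m * E1 - η * E') -
      ((x1 - x0) / (η * d) + E1 / (m * E1 - η * E')) - ((w - 1) + (v - 1) / m) =
    (xw - x1 - (η * w - η) * d) / (η * d) +
      v * (Ew - E1 - (η * w - η) * E') / (m * E1 - η * E') +
      (η * E' / (m * E1 - η * E')) * (v * (w - 1) + (v - 1) / m) := by
  obtain ⟨M, hMd⟩ : ∃ M, M = m * E1 - η * E' := ⟨_, rfl⟩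
  have hE1 : E1 = (M + η * E') / m := by rw [hMd]; field_simp; ring
  rw [← hMd] at hM ⊢
  rw [hE1]
  field_simp
  ring

lemma del (x E : ℂ → ℂ) (c : ℂ) (m : ℕ) (ρ : ℝ) (hρ : 0 < ρ) (hm : 2 ≤ m)
    (hx : DifferentiableOn ℂ x (ball c ρ)) (hx1 : deriv x c ≠ 0)
    (hE : DifferentiableOn ℂ E (ball c ρ)) (hE0 : E c ≠ 0) :
    ∃ C r0 : ℝ, 0 ≤ C ∧ 0 < r0 ∧ r0 ≤ ρ / 2 ∧ ∀ η : ℂ, η ≠ 0 → ‖η‖ ≤ r0 →
      deriv x (c + η) ≠ 0 ∧ m * E (c + η) - η * deriv E (c + η) ≠ 0 ∧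
      ∀ θ : ℝ, ‖ph x E c m η θ - ph x E c m η 0 - mdl m θ‖ ≤ C * ‖η‖ * θ ^ 2 := by
  have hmc : (m : ℂ) ≠ 0 := by exact_mod_cast (by omega : m ≠ 0)
  have hm1 : (1 : ℝ) ≤ m := by exact_mod_cast (by omega : 1 ≤ m)
  have hdx : DifferentiableOn ℂ (deriv x) (ball c ρ) := hx.deriv isOpen_ball
  have hdE : DifferentiableOn ℂ (deriv E) (ball c ρ) := hE.deriv isOpen_ball
  obtain ⟨C1, hC1, T1⟩ := taylor2 x c ρ hρ hx
  obtain ⟨C2, hC2, T2⟩ := taylor2 E c ρ hρ hE
  have hsub : closedBall c (ρ / 2) ⊆ ball c ρ := closedBall_subset_ball (by linarith)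
  obtain ⟨B, hB⟩ := (isCompact_closedBall c (ρ / 2)).exists_bound_of_continuousOn
    (hdE.continuousOn.mono hsub)
  have hB0 : 0 ≤ B := le_trans (norm_nonneg _) (hB c (mem_closedBall_self (by linarith)))
  have hadd : Tendsto (fun η : ℂ => c + η) (𝓝 0) (𝓝 c) := by
    have h : Tendsto (fun η : ℂ => c + η) (𝓝 0) (𝓝 (c + 0)) :=
      (continuous_const.add continuous_id).tendsto 0
    simpa using h
  have hcb : ball c ρ ∈ 𝓝 c := ball_mem_nhds c hρ
  have hd0 : Tendsto (fun η : ℂ => ‖deriv x (c + η)‖) (𝓝 0) (𝓝 ‖deriv x c‖) :=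
    (((hdx.continuousOn.continuousAt hcb).tendsto).comp hadd).norm
  have hM0 : Tendsto (fun η : ℂ => ‖m * E (c + η) - η * deriv E (c + η)‖) (𝓝 0)
      (𝓝 ‖(m : ℂ) * E c - 0 * deriv E c‖) := by
    refine Tendsto.norm (Tendsto.sub (Tendsto.const_mul _ ?_) (Tendsto.mul tendsto_id ?_))
    · exact ((hE.continuousOn.continuousAt hcb).tendsto).comp hadd
    · exact ((hdE.continuousOn.continuousAt hcb).tendsto).comp hadd
  have hdp : 0 < ‖deriv x c‖ := norm_pos_iff.mpr hx1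
  have hMp : 0 < ‖(m : ℂ) * E c - 0 * deriv E c‖ := by
    rw [norm_pos_iff]; simpa using ⟨by omega, hE0⟩
  set d0 := ‖deriv x c‖ with hd0def
  set M0 := ‖(m : ℂ) * E c - 0 * deriv E c‖ with hM0def
  have ev := (hd0.eventually (lt_mem_nhds (by linarith : d0 / 2 < d0))).and
    (hM0.eventually (lt_mem_nhds (by linarith : M0 / 2 < M0)))
  obtain ⟨r1, hr1, hr1'⟩ := Metric.eventually_nhds_iff.mp ev
  refine ⟨2 * C1 / d0 + 2 * C2 * ρ / M0 + 18 * m ^ 2 * B / M0, min (r1 / 2) (ρ / 2), by positivity,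
    by positivity, min_le_right _ _, ?_⟩
  intro η hη0 hηr
  have hη1 : ‖η‖ < r1 := lt_of_le_of_lt (hηr.trans (min_le_left _ _)) (by linarith)
  have hη2 : ‖η‖ ≤ ρ / 2 := hηr.trans (min_le_right _ _)
  obtain ⟨hdl, hMl⟩ := hr1' (y := η) (by simpa [dist_eq_norm] using hη1)
  have hηp : 0 < ‖η‖ := norm_pos_iff.mpr hη0
  have hdne : deriv x (c + η) ≠ 0 := by
    rw [← norm_pos_iff]; linarith
  have hMne : m * E (c + η) - η * deriv E (c + η) ≠ 0 := by
    rw [← norm_pos_iff]; linarith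
  refine ⟨hdne, hMne, fun θ => ?_⟩
  have hw : ‖exp ((θ : ℂ) * I)‖ = 1 := Complex.norm_exp_ofReal_mul_I θ
  have hv : ‖exp (((-(m * θ) : ℝ)) * I)‖ = 1 := Complex.norm_exp_ofReal_mul_I _
  have hw1 : ‖exp ((θ : ℂ) * I) - 1‖ ≤ |θ| := by
    have := Real.norm_exp_I_mul_ofReal_sub_one_le (x := θ)
    rw [mul_comm]; simpa using this
  have hηw : ‖η * exp ((θ : ℂ) * I)‖ ≤ ρ / 2 := by rw [norm_mul, hw, mul_one]; exact hη2
  have e1 := T1 (η * exp ((θ : ℂ) * I)) η hηw hη2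
  have e2 := T2 (η * exp ((θ : ℂ) * I)) η hηw hη2
  have e3 : ‖η * exp ((θ : ℂ) * I) - η‖ ^ 2 ≤ ‖η‖ ^ 2 * θ ^ 2 := by
    have : η * exp ((θ : ℂ) * I) - η = η * (exp ((θ : ℂ) * I) - 1) := by ring
    rw [this, norm_mul, mul_pow]
    refine mul_le_mul_of_nonneg_left ?_ (by positivity)
    rw [← sq_abs θ]
    exact pow_le_pow_left₀ (norm_nonneg _) hw1 2
  have hph : ph x E c m η θ - ph x E c m η 0 - mdl m θ =
      (x (c + η * exp (θ * I)) - x (c + η) - (η * exp (θ * I) - η) * deriv x (c + η)) /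
        (η * deriv x (c + η)) +
      exp (((-(m * θ) : ℝ)) * I) * (E (c + η * exp (θ * I)) - E (c + η) -
        (η * exp (θ * I) - η) * deriv E (c + η)) / (m * E (c + η) - η * deriv E (c + η)) +
      (η * deriv E (c + η) / (m * E (c + η) - η * deriv E (c + η))) *
        (exp (((-(m * θ) : ℝ)) * I) * (exp (θ * I) - 1) +
          (exp (((-(m * θ) : ℝ)) * I) - 1) / m) := by
    rw [← alg _ (x c) (x (c + η)) _ (E (c + η)) _ _ η _ _ m hη0 hdne hmc hMne]
    unfold ph mdl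
    simp
  rw [hph]
  have hBη : ‖deriv E (c + η)‖ ≤ B := hB _ (by simpa [mem_closedBall, dist_eq_norm] using hη2)
  have b1 : ‖(x (c + η * exp (θ * I)) - x (c + η) - (η * exp (θ * I) - η) * deriv x (c + η)) /
        (η * deriv x (c + η))‖ ≤ (2 * C1 / d0) * ‖η‖ * θ ^ 2 := by
    rw [norm_div, norm_mul, div_le_iff₀ (by positivity)]
    refine e1.trans ?_
    have h1 : C1 * ‖η * exp ((θ : ℂ) * I) - η‖ ^ 2 ≤ C1 * (‖η‖ ^ 2 * θ ^ 2) :=
      mul_le_mul_of_nonneg_left e3 hC1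
    have h2 : C1 * (‖η‖ ^ 2 * θ ^ 2) = (2 * C1 / d0) * ‖η‖ * θ ^ 2 * (‖η‖ * (d0 / 2)) := by
      field_simp
    rw [h2] at h1
    refine h1.trans (mul_le_mul_of_nonneg_left (mul_le_mul_of_nonneg_left hdl.le hηp.le) ?_)
    positivity
  have b2 : ‖exp (((-(m * θ) : ℝ)) * I) * (E (c + η * exp (θ * I)) - E (c + η) -
        (η * exp (θ * I) - η) * deriv E (c + η)) / (m * E (c + η) - η * deriv E (c + η))‖ ≤
        (2 * C2 * ρ / M0) * ‖η‖ * θ ^ 2 := by
    rw [norm_div, norm_mul, hv, one_mul, div_le_iff₀ (norm_pos_iff.mpr hMne)]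
    refine e2.trans ?_
    have h1 : C2 * ‖η * exp ((θ : ℂ) * I) - η‖ ^ 2 ≤ C2 * (‖η‖ * ρ * θ ^ 2) := by
      refine mul_le_mul_of_nonneg_left (e3.trans ?_) hC2
      refine mul_le_mul_of_nonneg_right ?_ (sq_nonneg _)
      nlinarith
    have h2 : C2 * (‖η‖ * ρ * θ ^ 2) = (2 * C2 * ρ / M0) * ‖η‖ * θ ^ 2 * (M0 / 2) := by
      field_simp
    rw [h2] at h1
    refine h1.trans (mul_le_mul_of_nonneg_left hMl.le ?_)
    positivity
  have b3 : ‖(η * deriv E (c + η) / (m * E (c + η) - η * deriv E (c + η))) *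
        (exp (((-(m * θ) : ℝ)) * I) * (exp (θ * I) - 1) +
          (exp (((-(m * θ) : ℝ)) * I) - 1) / m)‖ ≤ (18 * m ^ 2 * B / M0) * ‖η‖ * θ ^ 2 := by
    rw [norm_mul, norm_div, norm_mul]
    have h1 : ‖η‖ * ‖deriv E (c + η)‖ / ‖m * E (c + η) - η * deriv E (c + η)‖ ≤
        ‖η‖ * B / (M0 / 2) := by
      gcongr
    calc _ ≤ (‖η‖ * B / (M0 / 2)) * (9 * m ^ 2 * θ ^ 2) :=
          mul_le_mul h1 (aux_bd m hm θ) (norm_nonneg _) (by positivity)
      _ = (18 * m ^ 2 * B / M0) * ‖η‖ * θ ^ 2 := by field_simp; ring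
  calc _ ≤ _ := norm_add₃_le
    _ ≤ (2 * C1 / d0) * ‖η‖ * θ ^ 2 + (2 * C2 * ρ / M0) * ‖η‖ * θ ^ 2 +
        (18 * m ^ 2 * B / M0) * ‖η‖ * θ ^ 2 := by gcongr
    _ = _ := by ring

lemma circ (F : ℂ → ℂ) (c : ℂ) (ρ : ℝ) (hF : DifferentiableOn ℂ F (ball c ρ \ {c})) (r θ0 : ℝ)
    (hr : 0 < r) (hr2 : r ≤ ρ / 2) :
    ∮ ω in C(c, ρ / 2), F ω = ∫ θ in (-Real.pi)..Real.pi,
      I * ((r * exp (θ0 * I)) * exp (θ * I)) * F (c + (r * exp (θ0 * I)) * exp (θ * I)) := by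
  have hρ : 0 < ρ := by linarith
  have hopen : IsOpen (ball c ρ \ {c}) := isOpen_ball.sdiff isClosed_singleton
  have h1 : ∮ ω in C(c, ρ / 2), F ω = ∮ ω in C(c, r), F ω := by
    refine Complex.circleIntegral_eq_of_differentiable_on_annulus_off_countable hr hr2
      (s := ∅) countable_empty ?_ ?_
    · refine hF.continuousOn.mono ?_
      rintro z ⟨hz1, hz2⟩
      refine ⟨closedBall_subset_ball (by linarith) hz1, ?_⟩
      rintro rfl
      exact hz2 (mem_ball_self hr)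
    · rintro z ⟨⟨hz1, hz2⟩, -⟩
      refine hF.differentiableAt (hopen.mem_nhds ⟨ball_subset_ball (by linarith) hz1, ?_⟩)
      rintro rfl
      exact hz2 (mem_closedBall_self hr.le)
  rw [h1, circleIntegral]
  have hper : Function.Periodic (fun θ : ℝ => deriv (circleMap c r) θ • F (circleMap c r θ))
      (2 * Real.pi) := by
    intro θ
    simp only [deriv_circleMap]
    rw [(periodic_circleMap c r) θ, (periodic_circleMap 0 r) θ]
  have h2 := hper.intervalIntegral_add_eq 0 (θ0 - Real.pi)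
  rw [zero_add] at h2
  rw [h2]
  have h3 : θ0 - Real.pi + 2 * Real.pi = Real.pi + θ0 := by ring
  have h4 : θ0 - Real.pi = -Real.pi + θ0 := by ring
  rw [h3, h4, ← intervalIntegral.integral_comp_add_right]
  refine intervalIntegral.integral_congr (fun θ _ => ?_)
  have e : (r : ℂ) * exp (((θ + θ0 : ℝ) : ℂ) * I) = (r * exp (θ0 * I)) * exp (θ * I) := by
    rw [mul_assoc, ← Complex.exp_add]; congr 2; push_cast; ring
  simp only [deriv_circleMap, circleMap, zero_add, smul_eq_mul]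
  rw [e]; ring

/-- the exponent on the circle -/
lemma expo (xw x0 Ew d M η w v A a : ℂ) (m : ℕ) (hη : η ≠ 0) (_ : d ≠ 0) (hM : M ≠ 0)
    (hA : A ≠ 0) (hvw : v * w ^ m = 1) (hA2 : A ^ 2 * η ^ m = -a * η * d * M) :
    (A / (η * d)) * xw + (-a * (η * d) / A) * (Ew / (η * w) ^ m) =
      (A / (η * d)) * x0 + A * ((xw - x0) / (η * d) + v * Ew / M) := by
  have hw : w ^ m ≠ 0 := right_ne_zero_of_mul_eq_one hvw
  have hv : v = 1 / w ^ m := by field_simp; exact hvw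
  have hηm : η ^ m ≠ 0 := pow_ne_zero _ hη
  have h1 : (-a * (η * d) / A) * (Ew / (η * w) ^ m) = A * (v * Ew / M) := by
    rw [mul_pow, hv]
    field_simp
    linear_combination (-Ew) * hA2
  rw [h1]; ring

theorem lapb : S_LAPB := by
  intro hlap a ρ c m x X E ha hρ hm hx hx1 hE hE0 hX hint
  obtain ⟨C, r0, hC, hr0, hr0ρ, hdel⟩ := del x E c m ρ hρ hm hx hx1 hE hE0
  have hm0 : (0 : ℝ) < m := by exact_mod_cast (by omega : 0 < m)
  have hmc : (m : ℂ) ≠ 0 := by exact_mod_cast (by omega : m ≠ 0)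
  have hpi := Real.pi_pos
  set x1 := deriv x c with hx1def
  obtain ⟨K, hKd⟩ : ∃ K : ℝ, K = ‖(a : ℂ) * m * E c * x1‖ := ⟨_, rfl⟩
  have hac : (a : ℂ) ≠ 0 := by exact_mod_cast ha.ne'
  have hne : (a : ℂ) * m * E c * x1 ≠ 0 := by
    refine mul_ne_zero (mul_ne_zero (mul_ne_zero hac hmc) hE0) hx1
  have hK : 0 < K := by rw [hKd]; exact norm_pos_iff.mpr hne
  have hKc : (K : ℂ) ≠ 0 := by exact_mod_cast hK.ne'
  -- the direction
  obtain ⟨u0, θ0, hu0, hu0p⟩ : ∃ (u0 : ℂ) (θ0 : ℝ), u0 = exp (θ0 * I) ∧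
      u0 ^ (m - 1) = -(a * m * E c * x1) / K := by
    refine ⟨_, arg (-(a * m * E c * x1) / K) / (m - 1 : ℕ), rfl, ?_⟩
    rw [← Complex.exp_nat_mul]
    have hn : ((m - 1 : ℕ) : ℂ) ≠ 0 := by exact_mod_cast (by omega : m - 1 ≠ 0)
    have e1 : ((m - 1 : ℕ) : ℂ) * (((arg (-(a * m * E c * x1) / K) / (m - 1 : ℕ) : ℝ) : ℂ) * I) =
        (arg (-(a * m * E c * x1) / K) : ℂ) * I := by
      push_cast; field_simp
    rw [e1]
    have hz : ‖-(a * m * E c * x1) / (K : ℂ)‖ = 1 := by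
      rw [norm_div, norm_neg, ← hKd, Complex.norm_real, Real.norm_of_nonneg hK.le, div_self hK.ne']
    have := Complex.norm_mul_exp_arg_mul_I (-(a * m * E c * x1) / (K : ℂ))
    rw [hz] at this
    simpa using this
  have hu0n : ‖u0‖ = 1 := by rw [hu0]; exact Complex.norm_exp_ofReal_mul_I θ0
  have hu00 : u0 ≠ 0 := by rw [← norm_pos_iff, hu0n]; norm_num
  obtain ⟨r, hrd⟩ : ∃ r : ℕ → ℝ, r = fun k : ℕ => r0 / ((k : ℝ) + 1) := ⟨_, rfl⟩
  have hrp : ∀ k, 0 < r k := fun k => by rw [hrd]; positivity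
  have hrle : ∀ k, r k ≤ r0 := fun k => by
    rw [hrd]; simp only
    rw [div_le_iff₀ (by positivity)]
    nlinarith [Nat.cast_nonneg (α := ℝ) k]
  have hrt : Tendsto r atTop (𝓝 0) := by
    rw [hrd]
    have := (tendsto_one_div_add_atTop_nhds_zero_nat (𝕜 := ℝ)).const_mul r0
    simpa [div_eq_mul_inv] using this
  obtain ⟨η, hηd⟩ : ∃ η : ℕ → ℂ, η = fun k => (r k : ℂ) * u0 := ⟨_, rfl⟩
  have hηn : ∀ k, ‖η k‖ = r k := fun k => by
    rw [hηd]; simp only [norm_mul, hu0n, mul_one, Complex.norm_real]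
    exact Real.norm_of_nonneg (hrp k).le
  have hη0 : ∀ k, η k ≠ 0 := fun k => by rw [← norm_pos_iff, hηn]; exact hrp k
  have hηt : Tendsto η atTop (𝓝 0) := by
    rw [tendsto_zero_iff_norm_tendsto_zero]
    simpa [hηn] using hrt
  obtain ⟨d, hdd⟩ : ∃ d : ℕ → ℂ, d = fun k => deriv x (c + η k) := ⟨_, rfl⟩
  obtain ⟨M, hMd⟩ : ∃ M : ℕ → ℂ, M = fun k => m * E (c + η k) - η k * deriv E (c + η k) :=
    ⟨_, rfl⟩
  have hD := fun k => hdel (η k) (hη0 k) (by rw [hηn]; exact hrle k)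
  have hdne : ∀ k, d k ≠ 0 := fun k => by rw [hdd]; exact (hD k).1
  have hMne : ∀ k, M k ≠ 0 := fun k => by rw [hMd]; exact (hD k).2.1
  have hdx : DifferentiableOn ℂ (deriv x) (ball c ρ) := hx.deriv isOpen_ball
  have hdE : DifferentiableOn ℂ (deriv E) (ball c ρ) := hE.deriv isOpen_ball
  have hcb : ball c ρ ∈ 𝓝 c := ball_mem_nhds c hρ
  have hct : Tendsto (fun k => c + η k) atTop (𝓝 c) := by simpa using hηt.const_add c
  have hdt : Tendsto d atTop (𝓝 x1) := by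
    rw [hdd]; exact ((hdx.continuousOn.continuousAt hcb).tendsto).comp hct
  have hMt : Tendsto M atTop (𝓝 (m * E c)) := by
    rw [hMd]
    have h1 := (((hE.continuousOn.continuousAt hcb).tendsto).comp hct).const_mul (m : ℂ)
    have h2 := hηt.mul (((hdE.continuousOn.continuousAt hcb).tendsto).comp hct)
    have h3 := h1.sub h2
    simpa using h3
  obtain ⟨R, hRd⟩ : ∃ R : ℕ → ℂ, R = fun k => M k * d k / (m * E c * x1) := ⟨_, rfl⟩
  have hmE : (m : ℂ) * E c * x1 ≠ 0 := mul_ne_zero (mul_ne_zero hmc hE0) hx1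
  have hRt : Tendsto R atTop (𝓝 1) := by
    rw [hRd]
    have := (hMt.mul hdt).div_const (m * E c * x1)
    rwa [div_self hmE] at this
  have hRne : ∀ k, R k ≠ 0 := fun k => by
    rw [hRd]; exact div_ne_zero (mul_ne_zero (hMne k) (hdne k)) hmE
  obtain ⟨σ, hσ2, hσt⟩ : ∃ σ : ℕ → ℂ, (∀ k, σ k ^ 2 = R k) ∧ Tendsto σ atTop (𝓝 1) := by
    refine ⟨fun k => R k ^ (((2 : ℕ) : ℂ)⁻¹), fun k => Complex.cpow_nat_inv_pow _ (by norm_num), ?_⟩
    have h1 : ContinuousAt (fun z : ℂ => z ^ (((2 : ℕ) : ℂ)⁻¹)) 1 :=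
      continuousAt_cpow_const (by simp)
    have h2 := h1.tendsto.comp hRt
    rw [Complex.one_cpow] at h2
    exact h2
  have hσne : ∀ k, σ k ≠ 0 := fun k h => by
    have := hσ2 k; rw [h] at this; exact hRne k (by simpa using this.symm)
  obtain ⟨T, hTd⟩ : ∃ T : ℕ → ℝ, T = fun k => √(K / r k ^ (m - 1)) := ⟨_, rfl⟩
  have hTp : ∀ k, 0 < T k := fun k => by
    rw [hTd]; exact Real.sqrt_pos.mpr (div_pos hK (pow_pos (hrp k) _))
  have hT2 : ∀ k, T k ^ 2 = K / r k ^ (m - 1) := fun k => by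
    rw [hTd]; exact Real.sq_sqrt (div_pos hK (pow_pos (hrp k) _)).le
  have hTt : Tendsto T atTop atTop := by
    rw [hTd]
    refine Real.tendsto_sqrt_atTop.comp ?_
    have h1 : Tendsto (fun k => r k ^ (m - 1)) atTop (𝓝[>] 0) := by
      refine tendsto_nhdsWithin_iff.mpr ⟨?_, Eventually.of_forall fun k => pow_pos (hrp k) _⟩
      have := hrt.pow (m - 1)
      rwa [zero_pow (by omega)] at this
    have h2 := (tendsto_inv_nhdsGT_zero.comp h1).const_mul_atTop hK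
    simpa [div_eq_mul_inv, Function.comp_def] using h2
  obtain ⟨A, hAd⟩ : ∃ A : ℕ → ℂ, A = fun k => (T k : ℂ) * σ k := ⟨_, rfl⟩
  have hTc : ∀ k, (T k : ℂ) ≠ 0 := fun k => by exact_mod_cast (hTp k).ne'
  have hAne : ∀ k, A k ≠ 0 := fun k => by rw [hAd]; exact mul_ne_zero (hTc k) (hσne k)
  have hAn : ∀ k, ‖A k‖ = T k * ‖σ k‖ := fun k => by
    rw [hAd]; simp only [norm_mul, Complex.norm_real]
    rw [Real.norm_of_nonneg (hTp k).le]
  have hAp : ∀ k, 0 < ‖A k‖ := fun k => norm_pos_iff.mpr (hAne k)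
  have hσn : Tendsto (fun k => ‖σ k‖) atTop (𝓝 1) := by simpa using hσt.norm
  have hAt : Tendsto (fun k => ‖A k‖) atTop atTop := by
    have := hTt.atTop_mul_pos (by norm_num : (0 : ℝ) < 1) hσn
    simpa [hAn] using this
  have hA2 : ∀ k, A k ^ 2 * η k ^ m = -(a : ℂ) * η k * d k * M k := by
    intro k
    have e1 : η k ^ m = η k * η k ^ (m - 1) := by
      rw [← pow_succ']; congr 1; omega
    have e2 : η k ^ (m - 1) = (r k : ℂ) ^ (m - 1) * (-(a * m * E c * x1) / K) := by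
      rw [hηd]; simp only [mul_pow]; rw [hu0p]
    have e3 : A k ^ 2 = (K : ℂ) / (r k : ℂ) ^ (m - 1) * (M k * d k / (m * E c * x1)) := by
      rw [hAd]; simp only [mul_pow]
      rw [hσ2 k, hRd]
      congr 1
      have := hT2 k
      exact_mod_cast congrArg (fun t : ℝ => (t : ℂ)) this
    have hrc : (r k : ℂ) ^ (m - 1) ≠ 0 := pow_ne_zero _ (by exact_mod_cast (hrp k).ne')
    rw [e1, e2, e3]
    field_simp
  -- the integrand
  obtain ⟨g, hgd⟩ : ∃ g : ℕ → ℝ → ℂ, g = fun (k : ℕ) (θ : ℝ) =>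
    deriv x (c + η k * exp (θ * I)) * exp (θ * I) := ⟨_, rfl⟩
  have hball : ∀ k (θ : ℝ), c + η k * exp (θ * I) ∈ closedBall c (ρ / 2) := fun k θ => by
    rw [mem_closedBall, dist_eq_norm, add_sub_cancel_left, norm_mul,
      Complex.norm_exp_ofReal_mul_I, mul_one, hηn]
    exact (hrle k).trans hr0ρ
  have hsub : closedBall c (ρ / 2) ⊆ ball c ρ := closedBall_subset_ball (by linarith)
  have hpath : ∀ k, Continuous (fun θ : ℝ => c + η k * exp (θ * I)) := fun k => by fun_prop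
  have hcomp : ∀ (f : ℂ → ℂ), DifferentiableOn ℂ f (ball c ρ) → ∀ k,
      Continuous (fun θ : ℝ => f (c + η k * exp (θ * I))) := fun f hf k =>
    hf.continuousOn.comp_continuous (hpath k) (fun θ => hsub (hball k θ))
  have hzero : ∀ k, ∫ θ in (-Real.pi)..Real.pi,
      exp (A k * (ph x E c m (η k) θ - ph x E c m (η k) 0)) * g k θ = 0 := by
    intro k
    set α := A k / (η k * d k) with hα
    set β := -(a : ℂ) * (η k * d k) / A k with hβ
    have hαβ : α * β = -(a : ℂ) := by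
      rw [hα, hβ]
      have h1 := hAne k
      have h2 := hη0 k
      have h3 := hdne k
      field_simp
    have h0 := hint α β hαβ
    have hcongr : ∀ ω ∈ ball c ρ \ {c}, exp (α * x ω + β * X ω) * deriv x ω =
        exp (α * x ω + β * (E ω / (ω - c) ^ m)) * deriv x ω := by
      rintro ω ⟨h1, h2⟩
      rw [hX ω h1 h2]
    have hF : DifferentiableOn ℂ (fun ω => exp (α * x ω + β * X ω) * deriv x ω)
        (ball c ρ \ {c}) := by
      refine DifferentiableOn.congr ?_ hcongr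
      have s1 : ball c ρ \ {c} ⊆ ball c ρ := sdiff_subset
      refine DifferentiableOn.mul (DifferentiableOn.cexp ?_) (hdx.mono s1)
      refine DifferentiableOn.add ((hx.mono s1).const_mul _) ?_
      refine DifferentiableOn.const_mul ?_ _
      refine DifferentiableOn.div (hE.mono s1) ?_ ?_
      · exact ((differentiable_id.sub_const c).pow m).differentiableOn
      · rintro ω ⟨-, h2⟩
        exact pow_ne_zero _ (sub_ne_zero.mpr h2)
    rw [circ _ c ρ hF (r k) θ0 (hrp k) ((hrle k).trans hr0ρ)] at h0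
    have hηk : (r k : ℂ) * exp (θ0 * I) = η k := by rw [hηd, hu0]
    rw [hηk] at h0
    have hpt : ∀ θ : ℝ, I * (η k * exp (θ * I)) *
        ((fun ω => exp (α * x ω + β * X ω) * deriv x ω) (c + η k * exp (θ * I))) =
        (I * η k * exp (α * x c + A k * ph x E c m (η k) 0)) *
          (exp (A k * (ph x E c m (η k) θ - ph x E c m (η k) 0)) * g k θ) := by
      intro θ
      have hne' : c + η k * exp (θ * I) ≠ c := by
        intro h
        have : η k * exp (θ * I) = 0 := by linear_combination h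
        rcases mul_eq_zero.mp this with h | h
        · exact hη0 k h
        · exact Complex.exp_ne_zero _ h
      simp only
      rw [hX _ (hsub (hball k θ)) hne', add_sub_cancel_left]
      have hvw : exp (((-(m * θ) : ℝ)) * I) * exp (θ * I) ^ m = 1 := by
        rw [← Complex.exp_nat_mul, ← Complex.exp_add]
        have : (((-(m * θ) : ℝ)) : ℂ) * I + m * (θ * I) = 0 := by push_cast; ring
        rw [this, Complex.exp_zero]
      have hexp := expo (x (c + η k * exp (θ * I))) (x c) (E (c + η k * exp (θ * I))) (d k) (M k)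
        (η k) (exp (θ * I)) (exp (((-(m * θ) : ℝ)) * I)) (A k) a m (hη0 k) (hdne k) (hMne k)
        (hAne k) hvw (hA2 k)
      have hph : (x (c + η k * exp (θ * I)) - x c) / (η k * d k) +
          exp (((-(m * θ) : ℝ)) * I) * E (c + η k * exp (θ * I)) / M k = ph x E c m (η k) θ := by
        rw [hdd, hMd]; rfl
      rw [hph] at hexp
      rw [← hα] at hexp
      rw [← hβ] at hexp
      rw [hexp, hgd]
      have e5 : α * x c + A k * ph x E c m (η k) θ = (α * x c + A k * ph x E c m (η k) 0) +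
          A k * (ph x E c m (η k) θ - ph x E c m (η k) 0) := by ring
      rw [e5, Complex.exp_add]
      ring
    rw [intervalIntegral.integral_congr (fun θ _ => hpt θ),
      intervalIntegral.integral_const_mul] at h0
    rcases mul_eq_zero.mp h0 with h | h
    · exact absurd h (mul_ne_zero (mul_ne_zero I_ne_zero (hη0 k)) (Complex.exp_ne_zero _))
    · exact h
  obtain ⟨Cg, hCg⟩ := (isCompact_closedBall c (ρ / 2)).exists_bound_of_continuousOn
    (hdx.continuousOn.mono hsub)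
  have hθt : ∀ u : ℝ, Tendsto (fun k => u / √‖A k‖) atTop (𝓝 0) := fun u =>
    Tendsto.div_atTop tendsto_const_nhds (Real.tendsto_sqrt_atTop.comp hAt)
  have hev := hlap A (fun k θ => ph x E c m (η k) θ) g (1 / Real.pi ^ 2) Cg (1 + m) x1
    (by positivity) (by positivity) hx1 hAt ?_ ?_ ?_ ?_ ?_ ?_
  · obtain ⟨k, hk⟩ := hev.exists
    exact hk (hzero k)
  · intro k
    refine Continuous.continuousOn ?_
    unfold ph
    refine Continuous.add ?_ ?_
    · exact ((hcomp x hx k).sub continuous_const).div_const _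
    · refine Continuous.div_const (Continuous.mul ?_ (hcomp E hE k)) _
      fun_prop
  · intro k
    refine Continuous.continuousOn ?_
    rw [hgd]
    exact (hcomp _ hdx k).mul (by fun_prop)
  · have hlim1 : Tendsto (fun k => -(2 / Real.pi ^ 2) + 6 * m * ‖σ k - 1‖ + ‖σ k‖ * (C * r k))
        atTop (𝓝 (-(2 / Real.pi ^ 2) + 6 * m * ‖(1 : ℂ) - 1‖ + 1 * (C * 0))) :=
      (((hσt.sub_const 1).norm.const_mul _).const_add _).add (hσn.mul (hrt.const_mul C))
    have hlim2 : Tendsto (fun k => -(1 / Real.pi ^ 2) * ‖σ k‖) atTop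
        (𝓝 (-(1 / Real.pi ^ 2) * 1)) := hσn.const_mul _
    have hlt : -(2 / Real.pi ^ 2) + 6 * m * ‖(1 : ℂ) - 1‖ + 1 * (C * 0) <
        -(1 / Real.pi ^ 2) * 1 := by
      have : 0 < 1 / Real.pi ^ 2 := by positivity
      have h2 : 2 / Real.pi ^ 2 = 2 * (1 / Real.pi ^ 2) := by ring
      have h3 : ‖(1 : ℂ) - 1‖ = 0 := by simp
      rw [h2, h3]; linarith
    filter_upwards [hlim1.eventually_lt hlim2 hlt] with k hk θ hθ
    have hθa : |θ| ≤ Real.pi := abs_le.mpr ⟨hθ.1, hθ.2⟩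
    have hd3 := (hD k).2.2 θ
    rw [hηn] at hd3
    obtain ⟨Δ, hΔ⟩ : ∃ Δ, Δ = ph x E c m (η k) θ - ph x E c m (η k) 0 - mdl m θ := ⟨_, rfl⟩
    rw [← hΔ] at hd3
    have e1 : A k * (ph x E c m (η k) θ - ph x E c m (η k) 0) =
        (T k : ℂ) * (mdl m θ + (σ k - 1) * mdl m θ + σ k * Δ) := by
      rw [hΔ, hAd]; ring
    rw [e1, Complex.re_ofReal_mul, Complex.add_re, Complex.add_re, hAn]
    have b1 := mdl_re m hm θ hθa
    have b2 : ((σ k - 1) * mdl m θ).re ≤ ‖σ k - 1‖ * (6 * m * θ ^ 2) := by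
      refine (Complex.re_le_norm _).trans ?_
      rw [norm_mul]
      exact mul_le_mul_of_nonneg_left (mdl_bd m hm θ) (norm_nonneg _)
    have b3 : (σ k * Δ).re ≤ ‖σ k‖ * (C * r k * θ ^ 2) := by
      refine (Complex.re_le_norm _).trans ?_
      rw [norm_mul]
      exact mul_le_mul_of_nonneg_left hd3 (norm_nonneg _)
    have b4 : (mdl m θ).re + ((σ k - 1) * mdl m θ).re + (σ k * Δ).re ≤
        (-(1 / Real.pi ^ 2) * ‖σ k‖) * θ ^ 2 := by
      have := mul_le_mul_of_nonneg_right hk.le (sq_nonneg θ)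
      nlinarith
    calc _ ≤ T k * ((-(1 / Real.pi ^ 2) * ‖σ k‖) * θ ^ 2) :=
          mul_le_mul_of_nonneg_left b4 (hTp k).le
      _ = _ := by ring
  · refine Eventually.of_forall fun k θ _ => ?_
    rw [hgd]
    simp only [norm_mul, Complex.norm_exp_ofReal_mul_I, mul_one]
    exact hCg _ (hball k θ)
  · intro u
    have hθ2 : ∀ k, (u / √‖A k‖) ^ 2 = u ^ 2 / ‖A k‖ := fun k => by
      rw [div_pow, Real.sq_sqrt (norm_nonneg _)]
    -- main part
    have L1 : Tendsto (fun k => -(((1 + m) * u ^ 2 / 2 : ℝ) : ℂ) * (σ k / (‖σ k‖ : ℂ))) atTop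
        (𝓝 (-(((1 + m) * u ^ 2 / 2 : ℝ) : ℂ) * (1 / ((1 : ℝ) : ℂ)))) := by
      refine Tendsto.const_mul _ (hσt.div ?_ (by simp))
      exact (Complex.continuous_ofReal.tendsto 1).comp hσn
    have L2 : Tendsto (fun k => A k * (mdl m (u / √‖A k‖) +
        (((1 + m) * (u / √‖A k‖) ^ 2 / 2 : ℝ) : ℂ))) atTop (𝓝 0) := by
      have hz : Tendsto (fun k => 2 * m ^ 2 * u ^ 2 * |u / √‖A k‖|) atTop (𝓝 0) := by
        have := ((hθt u).abs).const_mul (2 * (m : ℝ) ^ 2 * u ^ 2)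
        simpa using this
      refine squeeze_zero_norm' ?_ hz
      have hsm : ∀ᶠ k in atTop, m * |u / √‖A k‖| < 1 := by
        have h1 : Tendsto (fun k => m * |u / √‖A k‖|) atTop (𝓝 0) := by
          have := ((hθt u).abs).const_mul (m : ℝ)
          simpa using this
        exact h1.eventually (gt_mem_nhds (by norm_num))
      filter_upwards [hsm] with k hk
      rw [norm_mul]
      have h1 := mdl_taylor m hm (u / √‖A k‖) hk.le
      have h2 : |u / √‖A k‖| ^ 3 = (u ^ 2 / ‖A k‖) * |u / √‖A k‖| := by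
        rw [pow_succ, sq_abs, hθ2]
      rw [h2] at h1
      calc ‖A k‖ * _ ≤ ‖A k‖ * (2 * m ^ 2 * (u ^ 2 / ‖A k‖ * |u / √‖A k‖|)) :=
            mul_le_mul_of_nonneg_left h1 (norm_nonneg _)
        _ = _ := by
            have := (hAp k).ne'
            field_simp
    have L3 : Tendsto (fun k => A k * (ph x E c m (η k) (u / √‖A k‖) - ph x E c m (η k) 0 -
        mdl m (u / √‖A k‖))) atTop (𝓝 0) := by
      have hz : Tendsto (fun k => C * r k * u ^ 2) atTop (𝓝 0) := by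
        have := (hrt.const_mul C).mul_const (u ^ 2)
        simpa using this
      refine squeeze_zero_norm (fun k => ?_) hz
      rw [norm_mul]
      have h1 := (hD k).2.2 (u / √‖A k‖)
      rw [hηn, hθ2] at h1
      calc ‖A k‖ * _ ≤ ‖A k‖ * (C * r k * (u ^ 2 / ‖A k‖)) :=
            mul_le_mul_of_nonneg_left h1 (norm_nonneg _)
        _ = _ := by
            have := (hAp k).ne'
            field_simp
    have L := (L1.add L2).add L3
    have elim : -(((1 + m) * u ^ 2 / 2 : ℝ) : ℂ) * (1 / ((1 : ℝ) : ℂ)) + 0 + 0 =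
        (((-((1 + m) * u ^ 2 / 2) : ℝ)) : ℂ) := by push_cast; ring
    rw [elim] at L
    refine L.congr (fun k => ?_)
    have hAc : (A k) * (((1 + m) * (u / √‖A k‖) ^ 2 / 2 : ℝ) : ℂ) =
        (((1 + m) * u ^ 2 / 2 : ℝ) : ℂ) * (σ k / (‖σ k‖ : ℂ)) := by
      rw [hθ2, hAn]
      have h1 : (‖σ k‖ : ℂ) ≠ 0 := by exact_mod_cast (norm_pos_iff.mpr (hσne k)).ne'
      have h2 := hTc k
      rw [hAd]
      push_cast
      field_simp
    rw [mul_add, hAc]
    ring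
  · intro u
    rw [hgd]
    have h1 : Tendsto (fun k => exp (((u / √‖A k‖ : ℝ) : ℂ) * I)) atTop (𝓝 1) := by
      have h2 : Continuous (fun t : ℝ => exp ((t : ℂ) * I)) := by fun_prop
      have h3 := (h2.tendsto 0).comp (hθt u)
      simpa [Function.comp_def] using h3
    have h2 : Tendsto (fun k => c + η k * exp (((u / √‖A k‖ : ℝ) : ℂ) * I)) atTop (𝓝 c) := by
      have := (hηt.mul h1).const_add c
      simpa using this
    have h3 := ((hdx.continuousOn.continuousAt hcb).tendsto.comp h2).mul h1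
    simpa using h3

end Pool.Agent.Y219.SC
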